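import Pool.Agent.W610.HY.Stm4

/-!
# A Harnack type bound
-/

set_option autoImplicit false

namespace Pool.Agent.W366.HY.HARN

open Pool.Agent.W610.HY

open Metric

/-- The real part is nonnegative inside the circle. -/
theorem re_nonneg (p : Polynomial ℂ) (h : ∀ z : ℂ, ‖z‖ = 1 → 0 ≤ (p.eval z).re) (w : ℂ)
    (hw : ‖w‖ < 1) : 0 ≤ (p.eval w).re := by
  have hd : Differentiable ℂ fun z : ℂ => Complex.exp (-(p.eval z)) :=
    Complex.differentiable_exp.comp p.differentiable.neg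
  have h1 : ‖Complex.exp (-(p.eval w))‖ ≤ 1 := by
    refine Complex.norm_le_of_forall_mem_frontier_norm_le (U := ball (0 : ℂ) 1)
      Metric.isBounded_ball hd.diffContOnCl (fun z hz => ?_)
      (subset_closure (mem_ball_zero_iff.2 hw))
    rw [frontier_ball (0 : ℂ) one_ne_zero, mem_sphere_zero_iff_norm] at hz
    rw [Complex.norm_exp, Complex.neg_re]
    exact Real.exp_le_one_iff.2 (neg_nonpos.2 (h z hz))
  rw [Complex.norm_exp, Complex.neg_re, Real.exp_le_one_iff] at h1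
  linarith

theorem main : Pool.Agent.W610.HY.HARN := by
  intro p hp h w hw
  have hre := re_nonneg p h
  set μ := (p.eval 0).re with hμ
  have hμ0 : 0 ≤ μ := hre 0 (by rw [norm_zero]; exact one_pos)
  have h1w : 0 < 1 - ‖w‖ := by linarith
  have hp0 : p.eval 0 = (μ : ℂ) := by
    refine Complex.ext ?_ ?_
    · rw [Complex.ofReal_re]
    · rw [Complex.ofReal_im, hp]
  have hbc : ∀ ε : ℝ, 0 < ε → ‖p.eval 0 - p.eval w‖ ≤ 2 * (μ + ε) * ‖w‖ / (1 - ‖w‖) := by
    intro ε hε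
    have hM : 0 < μ + ε := by linarith
    refine Complex.borelCaratheodory_zero (f := fun z => p.eval 0 - p.eval z) hM ?_ ?_ one_pos
      (mem_ball_zero_iff.2 hw) (sub_self _)
    · exact (p.differentiable.const_sub _).differentiableOn
    · intro z hz
      have h2 := hre z (mem_ball_zero_iff.1 hz)
      show (p.eval 0 - p.eval z).re ≤ μ + ε
      rw [Complex.sub_re]
      linarith
  have hlim : ‖p.eval 0 - p.eval w‖ ≤ 2 * μ * ‖w‖ / (1 - ‖w‖) := by
    refine le_of_forall_pos_le_add fun δ hδ => ?_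
    have h2 := hbc (δ * (1 - ‖w‖) / 2) (by positivity)
    refine h2.trans ?_
    have e : 2 * (μ + δ * (1 - ‖w‖) / 2) * ‖w‖ / (1 - ‖w‖) =
        2 * μ * ‖w‖ / (1 - ‖w‖) + δ * ‖w‖ := by
      field_simp
    rw [e]
    have : δ * ‖w‖ ≤ δ * 1 := mul_le_mul_of_nonneg_left hw.le hδ.le
    linarith
  have h3 : ‖p.eval w‖ ≤ μ + 2 * μ * ‖w‖ / (1 - ‖w‖) := by
    have e : p.eval w = p.eval 0 - (p.eval 0 - p.eval w) := by ring
    rw [e]
    refine (norm_sub_le _ _).trans ?_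
    have h4 : ‖p.eval 0‖ = μ := by
      rw [hp0, Complex.norm_real, Real.norm_eq_abs, abs_of_nonneg hμ0]
    rw [h4]
    linarith
  refine h3.trans ?_
  have e : 3 / (1 - ‖w‖) * μ - (μ + 2 * μ * ‖w‖ / (1 - ‖w‖)) =
      μ * (2 - ‖w‖) / (1 - ‖w‖) := by
    field_simp
    ring
  have h5 : 0 ≤ μ * (2 - ‖w‖) / (1 - ‖w‖) :=
    div_nonneg (mul_nonneg hμ0 (by linarith)) h1w.le
  linarith

end Pool.Agent.W366.HY.HARN
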